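import Pool.Agent.Inv.Final
import Pool.Agent.TC.LebDefs

/-!
# Interfaces between the blocks of the proof (single random current, all `β > β_c`, `d ≥ 3`)

`x = tanh β`. Geometry and sums: `Pool.Agent.SRC`. The free two-point functions in cubes, slabs and
shells (`CUBE`, `SLAB`, `SHELL`, `SHELLP`) are defined in `Pool.Agent.Slb.Defs`.
-/

set_option autoImplicit false

namespace Pool.Agent.S1

open Finset Filter Pool.Agent.SRC Pool.Agent.Inv

variable {d : ℕ}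

/-- the box `Icc a b` fattened by `t` -/
noncomputable def fat (a b : Vx d) (t : ℕ) : Finset (Vx d) :=
  Finset.Icc (fun k => a k - (t : ℤ)) (fun k => b k + (t : ℤ))

/-- `S` vanishes in the interior of the fattened box (it lives on its outer faces or outside) -/
def Outer (a b : Vx d) (t : ℕ) (S : Vx d → ZMod 2) : Prop :=
  ∀ v, (∀ k, a k - (t : ℤ) < v k ∧ v k < b k + (t : ℤ)) → S v = 0

/-- the admissible boxes: `a ≤ b`, sides at most `M t` -/
def Adm (M t : ℕ) (a b : Vx d) : Prop := ∀ k, a k ≤ b k ∧ b k - a k ≤ (M : ℤ) * t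

/-- (FAC): factorisation of the sources across a shell of thickness `t` round a box with sides at most
`M t`; the inner sources are the boundary of a set `y` of edges of the core. -/
def FAC (d : ℕ) (x : ℝ) : Prop :=
  ∀ (M : ℕ) (ε : ℝ), 0 < ε → ∃ t0 : ℕ, ∀ t : ℕ, t0 ≤ t → ∀ a b : Vx d, Adm M t a b →
    ∀ (y : Finset (Ed d)) (S : Vx d → ZMod 2), y ⊆ edg (Finset.Icc a b) → Outer a b t S →
      ZZ (loopM x) (edg (fat a b t) \ edg (Finset.Icc a b)) (bd y + S) *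
          ZZ (loopM x) (edg (fat a b t) \ edg (Finset.Icc a b)) 0 ≤
        (1 + ε) * (ZZ (loopM x) (edg (fat a b t) \ edg (Finset.Icc a b)) (bd y) *
          ZZ (loopM x) (edg (fat a b t) \ edg (Finset.Icc a b)) S)

/-- (RMu): upper ratio mixing for the core -/
def RMu (d : ℕ) (x : ℝ) : Prop :=
  ∀ (M : ℕ) (ε : ℝ), 0 < ε → ∃ t0 : ℕ, ∀ t : ℕ, t0 ≤ t → ∀ a b : Vx d, Adm M t a b →
    ∀ (f : Finset (Ed d) → ℝ) (S : Vx d → ZMod 2), (∀ η, 0 ≤ f η) → Outer a b t S →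
      EL (loopM x) (edg (fat a b t)) S (fun η => f (η ∩ edg (Finset.Icc a b))) *
          ZZ (loopM x) (edg (fat a b t)) 0 ≤
        (1 + ε) * (EL (loopM x) (edg (fat a b t)) 0 (fun η => f (η ∩ edg (Finset.Icc a b))) *
          ZZ (loopM x) (edg (fat a b t)) S)

/-- (RMl): lower ratio mixing for the core -/
def RMl (d : ℕ) (x : ℝ) : Prop :=
  ∀ (M : ℕ) (ε : ℝ), 0 < ε → ∃ t0 : ℕ, ∀ t : ℕ, t0 ≤ t → ∀ a b : Vx d, Adm M t a b →
    ∀ (f : Finset (Ed d) → ℝ) (S : Vx d → ZMod 2), (∀ η, 0 ≤ f η) → Outer a b t S →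
      EL (loopM x) (edg (fat a b t)) 0 (fun η => f (η ∩ edg (Finset.Icc a b))) *
          ZZ (loopM x) (edg (fat a b t)) S ≤
        (1 + ε) * (EL (loopM x) (edg (fat a b t)) S (fun η => f (η ∩ edg (Finset.Icc a b))) *
          ZZ (loopM x) (edg (fat a b t)) 0)

/-! ## Percolation quantities: `PE`, `PI`, `th`, `pv`, `DI`, `LOW` of `Pool.Agent.Inv` -/

/-- `u` is connected to a vertex at sup-distance at least `n` from the origin -/
def BB (n : ℤ) (Y : Set (Ed d)) (u : Vx d) : Prop := ∃ z, (∃ i, n ≤ |z i|) ∧ conn Y u z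

/-- the near contact event: the origin is not connected far, and its cluster and the set of the vertices
connected far both meet the cube of radius `m` around `v` -/
def Em (n m : ℕ) (v : Vx d) (Y : Set (Ed d)) : Prop :=
  ¬ Far (n : ℤ) Y 0 ∧
    (∃ u, (∀ i, |u i - v i| ≤ (m : ℤ)) ∧ conn Y 0 u) ∧
    (∃ u, (∀ i, |u i - v i| ≤ (m : ℤ)) ∧ BB (n : ℤ) Y u)

/-- (GLUE): the gluing lemma with cost `exp (δ m)` -/
def GLUE (d : ℕ) (x : ℝ) : Prop :=
  ∀ a b δ : ℝ, 0 < a → a < b → b < 1 → 0 < δ → ∃ C : ℕ, ∀ s ∈ Set.Icc a b, ∀ (n m N : ℕ) (v : Vx d),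
    (∀ i, |v i| + (m : ℤ) + C ≤ N) →
      PE x s (boxE d N) (fun η b => ind (Em n m v (↑(η ∪ b) : Set (Ed d)))) ≤
        C * Real.exp (δ * m) *
          ∑ e ∈ edg (Finset.Icc (fun i => v i - ((m : ℤ) + C)) (fun i => v i + ((m : ℤ) + C))),
            PE x s (boxE d N) (pv n e)

/-- the range of inverse temperatures: `m*(β₀) > 0` and `β₀ < β` -/
def Sup (d : ℕ) (β : ℝ) : Prop :=
  ∃ β₀ m : ℝ, 0 ≤ β₀ ∧ β₀ < β ∧ 0 < m ∧
    ∀ L : ℕ, m ≤ TC.mp (Finset.Icc (fun _ : Fin d => -(L : ℤ)) (fun _ => (L : ℤ))) β₀ 0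

end Pool.Agent.S1
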