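import Pool.Agent.S1.Ifc
import Pool.Agent.Fac.Main

/-!
# Block B4 in the form of the interface (helper61)
-/

set_option autoImplicit false

namespace Pool.Agent.S1

open Pool.Agent.SRC Pool.Agent.Slb

variable {d : ℕ}

/-- B4: factorisation -/
theorem fac (hd : 3 ≤ d) {β : ℝ} (hβ : 0 < β) (h1 : CUBE d β) (h2 : SLAB d β) (h3 : SHELL d β)
    (h4 : SHELLP d β) : FAC d (Real.tanh β) := by
  intro M ε hε
  obtain ⟨t0, h⟩ := Pool.Agent.Fac.fac_core (by omega) hβ h1 h2 h3 h4 M ε hε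
  exact ⟨t0, fun t ht a b hab y S hy hS => h t ht a b hab y S hy hS⟩

end Pool.Agent.S1
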