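import Pool.Agent.S1.Ifc
import Pool.Agent.Glu.Cross
import Pool.Agent.Glu.Main

/-!
# Gluing lemma: from `FAC` and `ARM` to `GLUE`
-/

set_option autoImplicit false

namespace Pool.Agent.S1

open Finset Pool.Agent.SRC Pool.Agent.Inv

variable {d : ℕ}

/-- (FAC) for shells of cubes -/
theorem facc (x : ℝ) (h : FAC d x) : Glu.FACC d x := by
  intro κ hκ ε hε
  obtain ⟨M, hM⟩ := exists_nat_gt (2 / κ)
  obtain ⟨t0, h1⟩ := h M ε hε
  obtain ⟨R1, hR1⟩ := exists_nat_gt ((t0 : ℝ) / κ)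
  refine ⟨R1, fun R t hR ht y hy S hS => ?_⟩
  have hRr : (R1 : ℝ) ≤ R := by exact_mod_cast hR
  have ht0 : t0 ≤ t := by
    have e1 : (t0 : ℝ) < κ * R := by
      rw [div_lt_iff₀ hκ] at hR1
      nlinarith
    have e2 : (t0 : ℝ) ≤ t := by linarith
    exact_mod_cast e2
  have hadm : Adm M t (fun _ : Fin d => -(R : ℤ)) (fun _ => (R : ℤ)) := by
    intro k
    have e1 : (2 * R : ℝ) ≤ M * t := by
      rw [div_lt_iff₀ hκ] at hM
      have e0 : (0 : ℝ) ≤ R := Nat.cast_nonneg R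
      have e3 : (0 : ℝ) ≤ M := Nat.cast_nonneg M
      nlinarith
    have e2 : (2 * R : ℤ) ≤ M * t := by exact_mod_cast e1
    constructor
    · show -(R : ℤ) ≤ (R : ℤ)
      have : (0 : ℤ) ≤ R := Int.natCast_nonneg R
      linarith
    · show (R : ℤ) - -(R : ℤ) ≤ _
      linarith
  have c1 : Finset.Icc (fun _ : Fin d => -(R : ℤ)) (fun _ => (R : ℤ)) =
      Glu.cube (0 : Vx d) (R : ℤ) := by
    unfold Glu.cube
    congr 1 <;> · funext k; simp
  have c2 : fat (fun _ : Fin d => -(R : ℤ)) (fun _ => (R : ℤ)) t =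
      Glu.cube (0 : Vx d) ((R : ℤ) + t) := by
    unfold Glu.cube fat
    congr 1
    · funext k
      rw [Pi.zero_apply]
      ring
    · funext k
      rw [Pi.zero_apply]
      ring
  have h2 := h1 t ht0 _ _ hadm y S (by rw [c1]; exact hy) (by
    intro v hv
    by_contra hne
    obtain ⟨h3, i, h4⟩ := hS v hne
    have h5 := hv i
    have h6 : |v i| < (R : ℤ) + t := by
      rw [abs_lt]
      constructor <;> linarith [h5.1, h5.2]
    linarith)
  rw [c1, c2] at h2
  exact h2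

/-- the gluing lemma -/
theorem glue_of (hd : 0 < d) (x : ℝ) (hx : 0 < x) (hx1 : x < 1) (h1 : FAC d x)
    (h2 : Glu.ARM d x) : GLUE d x := by
  intro a b δ ha hab hb hδ
  obtain ⟨C, hC⟩ := Glu.gl x hx.le (Glu.Cross_of hd x hx hx1 (facc x h1) h2) a δ ha (by linarith) hδ
  refine ⟨C, fun s hs n m N v hv => ?_⟩
  have h3 := hC s hs.1 (by linarith [hs.2]) n m v N (by
    intro i
    exact hv i)
  have e1 : (fun η b : Finset (Ed d) => ind (Em n m v (↑(η ∪ b) : Set (Ed d)))) =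
      (fun η b : Finset (Ed d) => ind (Glu.Em n v m (↑(η ∪ b) : Set (Ed d)))) := by
    funext η b
    refine ind_congr ?_
    unfold Em Glu.Em
    refine and_congr Iff.rfl (and_congr (exists_congr fun u => ?_) (exists_congr fun u => ?_))
    · rw [Glu.mem_cube]
    · rw [Glu.mem_cube]
      rfl
  rw [e1]
  exact h3

end Pool.Agent.S1
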