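import Pool.Agent.LRO.Main
import Pool.Agent.Slb.Slab
import Pool.Agent.S1.Fac
import Pool.Agent.S1.Glue
import Pool.Agent.Drt.Di
import Pool.Agent.Uni.Main
import Pool.Agent.Fac.Vis
import Pool.Agent.Rng.Low
import Pool.Agent.Rng.Brg

/-!
# The chain of the main statements

`Sup d β` (`β > β_c`) ⟹ `CUBE`, `SLAB`, `SHELL`, `SHELLP` (correlations) ⟹ `FAC` (factorisation of sources) ⟹
`ARM` ⟹ `GLUE`; `CUBE` ⟹ `LOW`; `FAC`, `VIS` (visits), `UU` (sprinkled uniqueness), `GLUE` ⟹ `DI`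
(differential inequality) ⟹ percolation of the single random current.
-/

set_option autoImplicit false

namespace Pool.Agent.S1

open Finset Filter MeasureTheory Pool.Agent.SRC Pool.Agent.Inv Pool.Agent.Slb

variable {d : ℕ}

theorem Sup.pos {β : ℝ} (h : Sup d β) : 0 < β := by
  obtain ⟨β₀, m, h0, h1, -, -⟩ := h
  linarith

/-- there is room between `β₀` and `β` -/
theorem Sup.mid {β : ℝ} (h : Sup d β) : ∃ β₁, 0 ≤ β₁ ∧ β₁ < β ∧ Sup d β₁ := by
  obtain ⟨β₀, m, h0, h1, hm, hp⟩ := h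
  exact ⟨(β₀ + β) / 2, by linarith, by linarith, β₀, m, h0, by linarith, hm, hp⟩

/-- B1 (helper23, helper40, helper86): long range order in free cubes -/
theorem lro (hd : 3 ≤ d) {β : ℝ} (h : Sup d β) : LRO d β := by
  obtain ⟨β₀, m, h0, h1, hm, hp⟩ := h
  obtain ⟨c, hc, hL⟩ := Pool.Agent.LRO.lro (by omega) β₀ β m h0 h1 hm hp
  refine ⟨c, hc, 0, fun R _ => ?_⟩
  have h2 : cb (0 : Vx d) R = Finset.Icc (fun _ : Fin d => -(R : ℤ)) (fun _ => (R : ℤ)) := by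
    unfold cb
    congr 1 <;> · funext k; simp
  rw [h2]
  refine le_trans ?_ (hL R)
  refine mul_le_mul_of_nonneg_left ?_ hc.le
  refine pow_le_pow_left₀ (Nat.cast_nonneg R) ?_ d
  have : (0 : ℝ) ≤ R := Nat.cast_nonneg R
  linarith

/-- B2 (helper77): pointwise lower bounds in cubes, slabs and shells -/
theorem corr (hd : 3 ≤ d) {β : ℝ} (h : Sup d β) : CUBE d β ∧ SLAB d β ∧ SHELL d β ∧ SHELLP d β := by
  obtain ⟨β₁, h0, h1, h2⟩ := h.mid
  exact Pool.Agent.Slb.main hd β₁ β h0 h1 (lro hd h2)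

/-- the gluing lemma (helper55, helper40, helper60) -/
theorem glue (hd : 3 ≤ d) {β : ℝ} (hβ : 0 < β) (h1 : CUBE d β) (h2 : FAC d (Real.tanh β)) :
    GLUE d (Real.tanh β) :=
  glue_of (by omega) _ (Pool.Agent.FK1.tanh_pos' hβ) (Pool.Agent.FK1.tanh_lt_one' β) h2
    (Pool.Agent.Rng.gluARM (by omega) hβ h1 h2)

/-- the differential inequality (helper66, helper9, helper48, helper61, helper34) -/
theorem di (hd : 3 ≤ d) {β : ℝ} (hβ : 0 < β) (h1 : CUBE d β) (h2 : SLAB d β) (h3 : SHELL d β)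
    (h4 : FAC d (Real.tanh β)) (h5 : GLUE d (Real.tanh β)) (a b : ℝ) (ha : 0 < a) (hab : a < b)
    (hb : b < 1) : DI d (Real.tanh β) a b := by
  have hx0 : 0 < Real.tanh β := Pool.Agent.FK1.tanh_pos' hβ
  have hx1 : Real.tanh β < 1 := Pool.Agent.FK1.tanh_lt_one' β
  have hU : Pool.Agent.Bg.UU d (Real.tanh β ^ 2) :=
    Pool.Agent.Uni.uni_eps hd (pow_pos hx0 2) (pow_lt_one₀ hx0.le hx1 two_ne_zero)
  exact Pool.Agent.Drt.di_of (by omega) hx0 hx1.le h4 (Pool.Agent.Fac.visT hd hβ h1 h2 h3) hU h5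
    a b ha hab hb

/-- THE MAIN THEOREM -/
theorem main (hd : 3 ≤ d) {β : ℝ} (h : Sup d β) :
    ∃ μ : Measure (Ed d → ℕ), IsProbabilityMeasure μ ∧
      (∀ (F : Finset (Ed d)) (k : Ed d → ℕ),
        Tendsto (fun L => curP β (boxE d L) (cyl F k)) atTop (nhds (μ.real (cyl F k)))) ∧
      0 < μ {n | {v | conn {e | 0 < n e} 0 v}.Infinite} := by
  have hβ := h.pos
  obtain ⟨h1, h2, h3, h4⟩ := corr hd h
  have h5 := fac hd hβ h1 h2 h3 h4
  have h6 := glue hd hβ h1 h5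
  exact Pool.Agent.Inv.final (by omega) β hβ (fun a b ha hab hb => di hd hβ h1 h2 h3 h5 h6 a b ha hab hb)
    (Pool.Agent.Rng.low (by omega) hβ h1)

end Pool.Agent.S1
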